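import Pool.Agent.W192.CY.Stk
import Pool.Agent.W460.CY.MAINP

set_option autoImplicit false
set_option maxHeartbeats 1000000

/-! MAINP with a general weight function (adapted from the files of helper916 and helper460). -/

namespace Pool.Agent.W55.CY

open Finset
open Pool.Agent.W192.CY
open Pool.Agent.W916.CY (ai ai_abs ai_one EE EE_pos summ_EE c_bound term_bound filt_card tau_le)
open Pool.Agent.W460.CY (WW WW_abs sum_chi moebius_sum)

/-- the weight -/
noncomputable def VV (V : ℝ → ℝ) (X : ℝ) (n : ℕ) : ℝ := V (n / (X / 2))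

/-- the coefficients after multiplication by the mollifier -/
noncomputable def HG (V : ℝ → ℝ) (c m : ℕ → ℝ) (B : ℕ) (X : ℝ) (k : ℕ) : ℝ :=
  ∑ b ∈ (Icc 1 B).filter (fun b => b ∣ k), m b * c (k / b) * VV V X (k / b)

theorem VV_abs {V : ℝ → ℝ} {CV : ℝ} (hV : VW V CV) (X : ℝ) (hX : 0 < X) (n : ℕ) :
    |VV V X n| ≤ CV * EE X n := by
  unfold VV EE
  refine (hV.dec _ (by positivity)).trans (le_of_eq ?_)
  congr 2
  field_simp

theorem VV_one {V : ℝ → ℝ} {CV : ℝ} (hV : VW V CV) (X : ℝ) (hX : 0 < X) (n : ℕ) :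
    |VV V X n - 1| ≤ 2 * CV * (n / X) := by
  unfold VV
  rw [abs_sub_comm]
  refine (hV.one _ (by positivity)).trans (le_of_eq ?_)
  field_simp

theorem summ_c {V : ℝ → ℝ} {CV : ℝ} (hV : VW V CV) {c m : ℕ → ℝ} (h : Inv c m) (X : ℝ) (hX : 0 < X)
    (a : ℕ → ℝ) (A : ℝ) (ha : ∀ n, |a n| ≤ A) : Summable (fun n : ℕ => a n * c n / n * VV V X n) := by
  have hA : 0 ≤ A := (abs_nonneg _).trans (ha 0)
  have hC := hV.pos
  refine Summable.of_norm_bounded (g := fun n : ℕ => A * CV * ((n : ℝ) ^ 1 * EE X n))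
    ((summ_EE X hX 1).mul_left (A * CV)) (fun n => ?_)
  rw [Real.norm_eq_abs, abs_mul, abs_div, abs_mul, Nat.abs_cast]
  have h1 : |c n| / n ≤ n := by
    rcases Nat.eq_zero_or_pos n with h0 | h0
    · subst h0; simp
    · rw [div_le_iff₀ (by exact_mod_cast h0), ← pow_two]
      exact c_bound h n
  rw [pow_one]
  calc |a n| * |c n| / n * |VV V X n| = |a n| * (|c n| / n) * |VV V X n| := by ring
    _ ≤ A * n * (CV * EE X n) := by
        have := VV_abs hV X hX n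
        gcongr
        exact ha n
    _ = _ := by ring

/-- reindexing -/
theorem reindex {V : ℝ → ℝ} {CV : ℝ} (hV : VW V CV) {c m : ℕ → ℝ} (h : Inv c m) (B : ℕ) (X : ℝ)
    (hX : 0 < X) (W : ℕ → ℝ) (A : ℝ) (hW : ∀ n, |W n| ≤ A) :
    Summable (fun k : ℕ => W k * HG V c m B X k / k) ∧
    ∑ b ∈ Icc 1 B, m b / b * ∑' n : ℕ, W (b * n) * c n / n * VV V X n =
      ∑' k : ℕ, W k * HG V c m B X k / k := by
  classical
  let hb : ℕ → ℕ → ℝ := fun b k => if b ∣ k then W k * (m b * c (k / b) * VV V X (k / b)) / k else 0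
  have key : ∀ b ∈ Icc 1 B, Summable (hb b) ∧
      m b / b * ∑' n : ℕ, W (b * n) * c n / n * VV V X n = ∑' k, hb b k := by
    intro b hbm
    have hb1 : 1 ≤ b := (mem_Icc.1 hbm).1
    have hb0 : b ≠ 0 := by omega
    have hinj : Function.Injective (fun n : ℕ => b * n) := fun x y hxy =>
      Nat.eq_of_mul_eq_mul_left hb1 hxy
    have hcomp : ∀ n, hb b (b * n) = m b / b * (W (b * n) * c n / n * VV V X n) := by
      intro n
      show (if b ∣ b * n then W (b * n) * (m b * c (b * n / b) * VV V X (b * n / b)) / ((b * n : ℕ) : ℝ)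
        else 0) = _
      rw [if_pos (Dvd.intro n rfl), Nat.mul_div_cancel_left n hb1]
      push_cast
      have hbR : (b : ℝ) ≠ 0 := by exact_mod_cast hb0
      rcases Nat.eq_zero_or_pos n with h0 | h0
      · subst h0; simp
      · have hnR : (n : ℝ) ≠ 0 := by exact_mod_cast h0.ne'
        field_simp
    have hout : ∀ x ∉ Set.range (fun n : ℕ => b * n), hb b x = 0 := by
      intro x hx
      show (if b ∣ x then _ else 0) = _
      rw [if_neg]
      rintro ⟨y, rfl⟩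
      exact hx ⟨y, rfl⟩
    have hs1 : Summable (fun n => hb b (b * n)) := by
      have := (summ_c hV h X hX (fun n => W (b * n)) A (fun n => hW _)).mul_left (m b / b)
      exact this.congr (fun n => (hcomp n).symm)
    constructor
    · exact (hinj.summable_iff hout).1 hs1
    · rw [← tsum_mul_left]
      rw [← hinj.tsum_eq (f := hb b)]
      · exact tsum_congr (fun n => (hcomp n).symm)
      · intro x hx
        by_contra hcon
        exact hx (hout x hcon)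
  have hpt : ∀ k, ∑ b ∈ Icc 1 B, hb b k = W k * HG V c m B X k / k := by
    intro k
    show ∑ b ∈ Icc 1 B, (if b ∣ k then W k * (m b * c (k / b) * VV V X (k / b)) / k else 0) = _
    rw [← sum_filter]
    unfold HG
    rw [mul_sum, sum_div]
  constructor
  · have := summable_sum (s := Icc 1 B) (f := hb) (fun b hb' => (key b hb').1)
    refine this.congr (fun k => ?_)
    rw [hpt k]
  · rw [sum_congr rfl (fun b hb' => (key b hb').2), ← Summable.tsum_finsetSum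
      (fun b hb' => (key b hb').1)]
    exact tsum_congr hpt

/-- large k -/
theorem HG_large {V : ℝ → ℝ} {CV : ℝ} (hV : VW V CV) {c m : ℕ → ℝ} (h : Inv c m) (B : ℕ) (Bx X : ℝ)
    (hX : 0 < X) (hB : (B : ℝ) ≤ Bx) (hBx : 0 < Bx) {k : ℕ} (hk : 1 ≤ k) :
    |HG V c m B X k| ≤
      CV * ((k.divisors.card : ℝ) ^ 3 * Real.sqrt k * Real.exp (-((k : ℝ) / (Bx * X)))) := by
  have hC := hV.pos
  unfold HG
  calc |∑ b ∈ (Icc 1 B).filter (fun b => b ∣ k), m b * c (k / b) * VV V X (k / b)| ≤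
        ∑ b ∈ (Icc 1 B).filter (fun b => b ∣ k), |m b * c (k / b) * VV V X (k / b)| :=
        abs_sum_le_sum_abs _ _
    _ ≤ ∑ b ∈ (Icc 1 B).filter (fun b => b ∣ k),
        (k.divisors.card : ℝ) ^ 2 * Real.sqrt k * (CV * Real.exp (-((k : ℝ) / (Bx * X)))) := by
        refine sum_le_sum (fun b hb => ?_)
        rw [mem_filter, mem_Icc] at hb
        obtain ⟨⟨hb1, hbB⟩, hbk⟩ := hb
        rw [abs_mul]
        have hE : EE X (k / b) ≤ Real.exp (-((k : ℝ) / (Bx * X))) := by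
          unfold EE
          apply Real.exp_le_exp.2
          apply neg_le_neg
          have hbR : (0 : ℝ) < b := by exact_mod_cast hb1
          have e1 : (((k / b : ℕ)) : ℝ) = (k : ℝ) / b := by
            rw [Nat.cast_div hbk hbR.ne']
          rw [e1, div_div, mul_comm Bx X, mul_comm (b : ℝ) X]
          have hbB' : (b : ℝ) ≤ Bx := le_trans (by exact_mod_cast hbB) hB
          gcongr
        have hE2 : |VV V X (k / b)| ≤ CV * Real.exp (-((k : ℝ) / (Bx * X))) :=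
          (VV_abs hV X hX _).trans (mul_le_mul_of_nonneg_left hE hC.le)
        exact mul_le_mul (term_bound h hk hbk) hE2 (abs_nonneg _) (by positivity)
    _ = ((Icc 1 B).filter (fun b => b ∣ k)).card *
        ((k.divisors.card : ℝ) ^ 2 * Real.sqrt k * (CV * Real.exp (-((k : ℝ) / (Bx * X))))) := by
        rw [sum_const, nsmul_eq_mul]
    _ ≤ k.divisors.card *
        ((k.divisors.card : ℝ) ^ 2 * Real.sqrt k * (CV * Real.exp (-((k : ℝ) / (Bx * X))))) := by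
        have : (((Icc 1 B).filter (fun b => b ∣ k)).card : ℝ) ≤ k.divisors.card := by
          exact_mod_cast filt_card hk
        gcongr
    _ = _ := by ring

/-- small k -/
theorem HG_small {V : ℝ → ℝ} {CV : ℝ} (hV : VW V CV) {c m : ℕ → ℝ} (h : Inv c m) (B : ℕ) (X : ℝ)
    (hX : 0 < X) {k : ℕ} (hk : 2 ≤ k)
    (hkB : k ≤ B) : |HG V c m B X k| ≤ 2 * CV * ((k : ℝ) ^ 5 / X) := by
  have hC := hV.pos
  have hf : (Icc 1 B).filter (fun b => b ∣ k) = k.divisors := by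
    ext b
    rw [mem_filter, mem_Icc, Nat.mem_divisors]
    constructor
    · rintro ⟨_, hb⟩; exact ⟨hb, by omega⟩
    · rintro ⟨hb, _⟩
      exact ⟨⟨Nat.pos_of_dvd_of_pos hb (by omega), (Nat.le_of_dvd (by omega) hb).trans hkB⟩, hb⟩
  have h0 : ∑ b ∈ k.divisors, m b * c (k / b) = 0 := by
    have h1 := h.inv k (by omega)
    rw [if_neg (by omega)] at h1
    rw [← Nat.sum_divisorsAntidiagonal (fun a b => m a * c b)]
    exact h1
  have hG : HG V c m B X k = ∑ b ∈ k.divisors, m b * c (k / b) * (VV V X (k / b) - 1) := by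
    unfold HG
    rw [hf]
    have : ∑ b ∈ k.divisors, m b * c (k / b) * (VV V X (k / b) - 1) =
        ∑ b ∈ k.divisors, m b * c (k / b) * VV V X (k / b) - ∑ b ∈ k.divisors, m b * c (k / b) := by
      rw [← sum_sub_distrib]
      exact sum_congr rfl (fun b _ => by ring)
    rw [this, h0, sub_zero]
  have hkR : (1 : ℝ) ≤ k := by exact_mod_cast (by omega : 1 ≤ k)
  have htk : (k.divisors.card : ℝ) ≤ k := by exact_mod_cast tau_le k
  have hsq : Real.sqrt k ≤ k := by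
    rw [Real.sqrt_le_left (by linarith)]
    nlinarith
  rw [hG]
  calc |∑ b ∈ k.divisors, m b * c (k / b) * (VV V X (k / b) - 1)| ≤
        ∑ b ∈ k.divisors, |m b * c (k / b) * (VV V X (k / b) - 1)| := abs_sum_le_sum_abs _ _
    _ ≤ ∑ b ∈ k.divisors, (k : ℝ) ^ 2 * k * (2 * CV * ((k : ℝ) / X)) := by
        refine sum_le_sum (fun b hb => ?_)
        rw [Nat.mem_divisors] at hb
        rw [abs_mul]
        have e1 : |m b * c (k / b)| ≤ (k : ℝ) ^ 2 * k := by
          refine (term_bound h (by omega) hb.1).trans ?_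
          gcongr
        have e2 : |VV V X (k / b) - 1| ≤ 2 * CV * ((k : ℝ) / X) := by
          refine (VV_one hV X hX _).trans ?_
          have : ((k / b : ℕ) : ℝ) ≤ k := by exact_mod_cast Nat.div_le_self k b
          gcongr
        exact mul_le_mul e1 e2 (abs_nonneg _) (by positivity)
    _ = k.divisors.card * ((k : ℝ) ^ 2 * k * (2 * CV * ((k : ℝ) / X))) := by
        rw [sum_const, nsmul_eq_mul]
    _ ≤ k * ((k : ℝ) ^ 2 * k * (2 * CV * ((k : ℝ) / X))) := by gcongr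
    _ = _ := by ring

theorem HG_one (V : ℝ → ℝ) {c m : ℕ → ℝ} (h : Inv c m) (hc : c 1 = 1) (B : ℕ) (X : ℝ) (hB : 1 ≤ B) :
    HG V c m B X 1 = VV V X 1 := by
  have hf : (Icc 1 B).filter (fun b => b ∣ 1) = {1} := by
    ext b
    rw [mem_filter, mem_Icc, mem_singleton, Nat.dvd_one]
    constructor
    · rintro ⟨_, hb⟩; exact hb
    · rintro rfl; exact ⟨⟨le_rfl, hB⟩, rfl⟩
  unfold HG
  rw [hf, sum_singleton, h.one]
  norm_num [hc]

theorem pe_bound {V : ℝ → ℝ} {CV : ℝ} (hV : VW V CV) {c m : ℕ → ℝ} (h : Inv c m) (hc : c 1 = 1)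
    (η C1 : ℝ) (hη1 : η < 1 / 8)
    (hC1pos : 0 < C1) (hC1 : ∀ n : ℕ, 1 ≤ n → (n.divisors.card : ℝ) ^ 3 ≤ C1 * (n : ℝ) ^ η)
    (q : ℕ) (H : Subgroup (ZMod q)ˣ) (Bx X : ℝ) (hBx : 1 ≤ Bx) (hX : 0 < X) :
    |∑' k : ℕ, ai q H k * HG V c m ⌊Bx⌋₊ X k / k - VV V X 1| ≤
      2 * CV * (Bx ^ 5 / X) + CV * C1 * tail q H Bx (Bx * X) η := by
  classical
  have hCp := hV.pos
  obtain ⟨B, hB⟩ : ∃ B : ℕ, B = ⌊Bx⌋₊ := ⟨_, rfl⟩
  rw [← hB]
  have hB1 : 1 ≤ B := by rw [hB]; exact Nat.le_floor (by simpa using hBx)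
  have hBle : (B : ℝ) ≤ Bx := by rw [hB]; exact Nat.floor_le (by linarith)
  have hBiff : ∀ k : ℕ, k ≤ B ↔ (k : ℝ) ≤ Bx := by
    intro k; rw [hB]; exact Nat.le_floor_iff (by linarith)
  obtain ⟨hs, _⟩ := reindex hV h B X hX (ai q H) 1 (ai_abs q H)
  let p : ℕ → ℝ := fun k => ai q H k * HG V c m B X k / k
  have hs' : Summable p := hs
  let f1 : ℕ → ℝ := fun k => if k ≤ B then p k else 0
  let f2 : ℕ → ℝ := fun k => if k ≤ B then 0 else p k
  have hf1 : Summable f1 := by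
    refine summable_of_ne_finset_zero (s := range (B + 1)) (fun k hk => ?_)
    rw [mem_range] at hk
    exact if_neg (by omega)
  have hf2 : Summable f2 := by
    have : f2 = fun k => p k - f1 k := by
      funext k
      show (if k ≤ B then (0 : ℝ) else p k) = p k - (if k ≤ B then p k else 0)
      split_ifs <;> simp
    rw [this]
    exact hs'.sub hf1
  have hsplit : ∑' k, p k = ∑' k, f1 k + ∑' k, f2 k := by
    rw [← hf1.tsum_add hf2]
    refine tsum_congr (fun k => ?_)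
    show p k = (if k ≤ B then p k else 0) + (if k ≤ B then (0 : ℝ) else p k)
    split_ifs <;> simp
  have ht1 : ∑' k, f1 k = ∑ k ∈ range (B + 1), f1 k := by
    refine tsum_eq_sum (fun k hk => ?_)
    rw [mem_range] at hk
    exact if_neg (by omega)
  have hp0 : f1 0 = 0 := by
    show (if 0 ≤ B then ai q H 0 * HG V c m B X 0 / ((0 : ℕ) : ℝ) else 0) = 0
    simp
  have hp1 : f1 1 = VV V X 1 := by
    show (if 1 ≤ B then ai q H 1 * HG V c m B X 1 / ((1 : ℕ) : ℝ) else 0) = VV V X 1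
    rw [if_pos hB1, ai_one, HG_one V h hc B X hB1]
    simp
  have hsum1 : |∑ k ∈ range (B + 1), f1 k - VV V X 1| ≤ 2 * CV * (Bx ^ 5 / X) := by
    have e1 : ∑ k ∈ range (B + 1), f1 k - VV V X 1 = ∑ k ∈ Ico 2 (B + 1), f1 k := by
      rw [range_eq_Ico, ← sum_Ico_consecutive f1 (Nat.zero_le 2) (by omega : 2 ≤ B + 1)]
      have : ∑ k ∈ Ico 0 2, f1 k = f1 0 + f1 1 := by
        rw [← range_eq_Ico, sum_range_succ, sum_range_one]
      rw [this, hp0, hp1]
      ring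
    rw [e1]
    calc |∑ k ∈ Ico 2 (B + 1), f1 k| ≤ ∑ k ∈ Ico 2 (B + 1), |f1 k| := abs_sum_le_sum_abs _ _
      _ ≤ ∑ k ∈ Ico 2 (B + 1), 2 * CV * ((B : ℝ) ^ 4 / X) := by
          refine sum_le_sum (fun k hk => ?_)
          rw [mem_Ico] at hk
          have hkB : k ≤ B := by omega
          have hkpos : (0 : ℝ) < k := by exact_mod_cast (by omega : 0 < k)
          show |if k ≤ B then ai q H k * HG V c m B X k / (k : ℝ) else 0| ≤ _
          rw [if_pos hkB, abs_div, abs_mul, Nat.abs_cast]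
          have g1 := HG_small hV h B X hX hk.1 hkB
          have g2 := ai_abs q H k
          calc |ai q H k| * |HG V c m B X k| / k ≤ 1 * (2 * CV * ((k : ℝ) ^ 5 / X)) / k := by
                gcongr
            _ = 2 * CV * ((k : ℝ) ^ 4 / X) := by field_simp
            _ ≤ 2 * CV * ((B : ℝ) ^ 4 / X) := by
                have : (k : ℝ) ≤ B := by exact_mod_cast hkB
                gcongr
      _ = (B - 1 : ℕ) * (2 * CV * ((B : ℝ) ^ 4 / X)) := by
          rw [sum_const, Nat.card_Ico, nsmul_eq_mul]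
          congr 2
      _ ≤ B * (2 * CV * ((B : ℝ) ^ 4 / X)) := by
          have : ((B - 1 : ℕ) : ℝ) ≤ B := by exact_mod_cast Nat.sub_le B 1
          gcongr
      _ = 2 * CV * ((B : ℝ) ^ 5 / X) := by ring
      _ ≤ 2 * CV * (Bx ^ 5 / X) := by gcongr
  -- the tail
  let tf : ℕ → ℝ := fun k => Set.indicator {k : ℕ | Bx < k ∧ ∃ u ∈ H,
    ((u : (ZMod q)ˣ) : ZMod q) = (k : ZMod q)}
    (fun k : ℕ => (k : ℝ) ^ (-1 / 2 + η) * Real.exp (-(k / (Bx * X)))) k
  have htf0 : ∀ k, 0 ≤ tf k := by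
    intro k
    refine Set.indicator_nonneg (fun k _ => ?_) k
    positivity
  have hstf : Summable tf := by
    refine Summable.of_norm_bounded (g := fun n : ℕ => (n : ℝ) ^ 0 * EE (Bx * X) n)
      (summ_EE (Bx * X) (by positivity) 0) (fun k => ?_)
    rw [Real.norm_eq_abs, abs_of_nonneg (htf0 k), pow_zero, one_mul]
    show Set.indicator _ _ k ≤ _
    rw [Set.indicator_apply]
    split_ifs with hk
    · have hk1 : (1 : ℝ) ≤ k := hBx.trans hk.1.le
      have : (k : ℝ) ^ (-1 / 2 + η) ≤ 1 := Real.rpow_le_one_of_one_le_of_nonpos hk1 (by linarith)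
      have h2 := Real.exp_pos (-((k : ℝ) / (Bx * X)))
      unfold EE
      nlinarith
    · exact (EE_pos _ _).le
  have hCC : 0 < CV * C1 := by positivity
  have ht2 : |∑' k, f2 k| ≤ CV * C1 * tail q H Bx (Bx * X) η := by
    rw [← Real.norm_eq_abs]
    have hsumtail : HasSum (fun k => CV * C1 * tf k) (CV * C1 * tail q H Bx (Bx * X) η) :=
      hstf.hasSum.mul_left (CV * C1)
    refine tsum_of_norm_bounded hsumtail (fun k => ?_)
    rw [Real.norm_eq_abs]
    show |if k ≤ B then (0 : ℝ) else ai q H k * HG V c m B X k / k| ≤ _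
    by_cases hkB : k ≤ B
    · rw [if_pos hkB, abs_zero]
      exact mul_nonneg hCC.le (htf0 k)
    · rw [if_neg hkB]
      have hkBx : Bx < k := by
        by_contra hcon
        exact hkB ((hBiff k).2 (not_lt.1 hcon))
      by_cases hu : ∃ u ∈ H, ((u : (ZMod q)ˣ) : ZMod q) = (k : ZMod q)
      · have hk1 : 1 ≤ k := by omega
        have hkpos : (0 : ℝ) < k := by exact_mod_cast hk1
        have e1 : ai q H k = 1 := by unfold ai; rw [if_pos hu]
        have e2 : tf k = (k : ℝ) ^ (-1 / 2 + η) * Real.exp (-(k / (Bx * X))) := by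
          show Set.indicator _ _ k = _
          rw [Set.indicator_of_mem]
          exact ⟨hkBx, hu⟩
        rw [e1, e2, one_mul, abs_div, Nat.abs_cast, div_le_iff₀ hkpos]
        refine (HG_large hV h B Bx X hX hBle (by linarith) hk1).trans ?_
        have e3 : (k : ℝ) ^ (-1 / 2 + η) * k = (k : ℝ) ^ η * Real.sqrt k := by
          rw [Real.sqrt_eq_rpow, ← Real.rpow_add hkpos]
          nth_rewrite 2 [← Real.rpow_one (k : ℝ)]
          rw [← Real.rpow_add hkpos]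
          congr 1
          ring
        calc CV * ((k.divisors.card : ℝ) ^ 3 * Real.sqrt k * Real.exp (-((k : ℝ) / (Bx * X)))) ≤
              CV * ((C1 * (k : ℝ) ^ η) * Real.sqrt k * Real.exp (-((k : ℝ) / (Bx * X)))) := by
              have := hC1 k hk1
              gcongr
          _ = CV * (C1 * ((k : ℝ) ^ η * Real.sqrt k) * Real.exp (-((k : ℝ) / (Bx * X)))) := by ring
          _ = CV * (C1 * ((k : ℝ) ^ (-1 / 2 + η) * k) * Real.exp (-((k : ℝ) / (Bx * X)))) := by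
              rw [e3]
          _ = _ := by ring
      · have e1 : ai q H k = 0 := by unfold ai; rw [if_neg hu]
        rw [e1]
        simp only [zero_mul, zero_div, abs_zero]
        exact mul_nonneg hCC.le (htf0 k)
  have hfin : ∑' k : ℕ, ai q H k * HG V c m B X k / k - VV V X 1 =
      (∑ k ∈ range (B + 1), f1 k - VV V X 1) + ∑' k, f2 k := by
    have : ∑' k : ℕ, ai q H k * HG V c m B X k / k = ∑' k, p k := rfl
    rw [this, hsplit, ht1]
    ring
  rw [hfin]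
  exact (abs_add_le _ _).trans (add_le_add hsum1 ht2)

/-- the double sum as a real number -/
theorem double_sum {V : ℝ → ℝ} {CV : ℝ} (hV : VW V CV) (h2 : G_ORTH) (h3 : G_MOB) {c m : ℕ → ℝ}
    (h : Inv c m) (q : ℕ)
    [NeZero q] (χ₀ : DirichletCharacter ℂ q) (B : ℕ) (X : ℝ) (hX : 0 < X) :
    ∑ b ∈ Icc 1 B, ((m b / b : ℝ) : ℂ) * ∑ χ ∈ Eg q χ₀,
      χ (b : ZMod q) * (∑' n : ℕ, χ (n : ZMod q) * (c n : ℂ) / n * (V (n / (X / 2)) : ℂ)) =
    ((∑ e ∈ (orderOf χ₀).divisors, ((ArithmeticFunction.moebius (orderOf χ₀ / e) : ℤ) : ℝ) * ((e : ℝ) *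
      ∑' k : ℕ, ai q (Hg q χ₀ e) k * HG V c m B X k / k) : ℝ) : ℂ) := by
  classical
  have hC := hV.pos
  have hsχ : ∀ χ : DirichletCharacter ℂ q, Summable (fun n : ℕ => χ (n : ZMod q) * (c n : ℂ) / n *
      (V (n / (X / 2)) : ℂ)) := by
    intro χ
    refine Summable.of_norm_bounded (g := fun n : ℕ => CV * ((n : ℝ) ^ 1 * EE X n))
      ((summ_EE X hX 1).mul_left CV) (fun n => ?_)
    rw [norm_mul, norm_div, norm_mul, Complex.norm_real, Complex.norm_real, Complex.norm_natCast,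
      Real.norm_eq_abs, Real.norm_eq_abs, pow_one]
    have h1 : ‖χ (n : ZMod q)‖ ≤ 1 := χ.norm_le_one _
    have h4 : |c n| / n ≤ n := by
      rcases Nat.eq_zero_or_pos n with h0 | h0
      · subst h0; simp
      · rw [div_le_iff₀ (by exact_mod_cast h0), ← pow_two]
        exact c_bound h n
    have h5 : |V ((n : ℝ) / (X / 2))| ≤ CV * EE X n := VV_abs hV X hX n
    calc ‖χ (n : ZMod q)‖ * |c n| / n * |V (n / (X / 2))| =
          ‖χ (n : ZMod q)‖ * (|c n| / n) * |V (n / (X / 2))| := by ring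
      _ ≤ 1 * n * (CV * EE X n) := by gcongr
      _ = _ := by ring
  have hb : ∀ b : ℕ, ∑ χ ∈ Eg q χ₀, χ (b : ZMod q) * (∑' n : ℕ, χ (n : ZMod q) * (c n : ℂ) / n *
      (V (n / (X / 2)) : ℂ)) =
      ((∑' n : ℕ, WW q χ₀ (b * n) * c n / n * VV V X n : ℝ) : ℂ) := by
    intro b
    have e1 : ∀ χ ∈ Eg q χ₀, χ (b : ZMod q) * (∑' n : ℕ, χ (n : ZMod q) * (c n : ℂ) / n *
        (V (n / (X / 2)) : ℂ)) = ∑' n : ℕ, χ (b : ZMod q) * (χ (n : ZMod q) * (c n : ℂ) / n *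
        (V (n / (X / 2)) : ℂ)) := fun χ _ => tsum_mul_left.symm
    rw [sum_congr rfl e1, ← Summable.tsum_finsetSum (fun χ _ => (hsχ χ).mul_left _),
      Complex.ofReal_tsum]
    refine tsum_congr (fun n => ?_)
    have e2 : ∀ χ ∈ Eg q χ₀, χ (b : ZMod q) * (χ (n : ZMod q) * (c n : ℂ) / n *
        (V (n / (X / 2)) : ℂ)) = χ ((b * n : ℕ) : ZMod q) * ((c n : ℂ) / n *
        (V (n / (X / 2)) : ℂ)) := by
      intro χ _
      rw [Nat.cast_mul, map_mul]
      ring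
    rw [sum_congr rfl e2, ← sum_mul, sum_chi h2 h3 q χ₀]
    unfold VV
    push_cast
    ring
  obtain ⟨hs, hre⟩ := reindex hV h B X hX (WW q χ₀) _ (WW_abs q χ₀)
  have hL : ∑ b ∈ Icc 1 B, ((m b / b : ℝ) : ℂ) * ∑ χ ∈ Eg q χ₀,
      χ (b : ZMod q) * (∑' n : ℕ, χ (n : ZMod q) * (c n : ℂ) / n * (V (n / (X / 2)) : ℂ)) =
      ((∑ b ∈ Icc 1 B, m b / b * ∑' n : ℕ, WW q χ₀ (b * n) * c n / n * VV V X n : ℝ) : ℂ) := by
    rw [Complex.ofReal_sum]
    refine sum_congr rfl (fun b _ => ?_)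
    rw [hb b, ← Complex.ofReal_mul]
  rw [hL, hre]
  congr 1
  have hse : ∀ e ∈ (orderOf χ₀).divisors, Summable (fun k : ℕ =>
      ((ArithmeticFunction.moebius (orderOf χ₀ / e) : ℤ) : ℝ) * ((e : ℝ) *
        (ai q (Hg q χ₀ e) k * HG V c m B X k / k))) := by
    intro e _
    exact ((reindex hV h B X hX (ai q (Hg q χ₀ e)) 1 (ai_abs q _)).1.mul_left _).mul_left _
  have e3 : ∀ k : ℕ, WW q χ₀ k * HG V c m B X k / k = ∑ e ∈ (orderOf χ₀).divisors,
      ((ArithmeticFunction.moebius (orderOf χ₀ / e) : ℤ) : ℝ) * ((e : ℝ) *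
        (ai q (Hg q χ₀ e) k * HG V c m B X k / k)) := by
    intro k
    unfold WW
    rw [sum_mul, sum_div]
    refine sum_congr rfl (fun e _ => ?_)
    ring
  rw [tsum_congr e3, Summable.tsum_finsetSum hse]
  refine sum_congr rfl (fun e _ => ?_)
  rw [tsum_mul_left, tsum_mul_left]

theorem k_mainp (h1 : S_DIV) (h2 : G_ORTH) (h3 : G_MOB) (h4 : G_TAIL) : K_MAINP := by
  classical
  intro V CV hV c m hc hInv ε hε hε4
  have hCV := hV.pos
  obtain ⟨η, δ0, C0, hη, hη8, hδ0, hC0, htail⟩ := h4 ε hε hε4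
  obtain ⟨Ca, hCa, hdiv, _⟩ := h1 (η / 3) (by positivity)
  obtain ⟨ρ, hρ, hρ1, hρ2⟩ : ∃ ρ : ℝ, 0 < ρ ∧ 2 * ρ ≤ δ0 ∧ 2 * ρ ≤ 1 / 2 := by
    refine ⟨min δ0 (1 / 2) / 2, by positivity, ?_, ?_⟩
    · linarith [min_le_left δ0 (1 / 2)]
    · linarith [min_le_right δ0 (1 / 2)]
  obtain ⟨Cb, hCb, hdivb, _⟩ := h1 ρ hρ
  obtain ⟨C1, hC1⟩ : ∃ C1 : ℝ, C1 = Ca ^ 3 := ⟨_, rfl⟩
  have hC1pos : 0 < C1 := by rw [hC1]; positivity
  have hC1b : ∀ n : ℕ, 1 ≤ n → (n.divisors.card : ℝ) ^ 3 ≤ C1 * (n : ℝ) ^ η := by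
    intro n hn
    have := hdiv n hn
    calc (n.divisors.card : ℝ) ^ 3 ≤ (Ca * (n : ℝ) ^ (η / 3)) ^ 3 := by gcongr
      _ = C1 * ((n : ℝ) ^ (η / 3)) ^ 3 := by rw [mul_pow, hC1]
      _ = C1 * (n : ℝ) ^ η := by
          rw [← Real.rpow_natCast, ← Real.rpow_mul (by positivity)]
          congr 2
          push_cast
          ring
  refine ⟨ρ, Cb * (2 * CV + CV * C1 * C0) + 2 * CV, 1, hρ, by positivity, ?_⟩
  intro q hq _ χ₀ hdq
  obtain ⟨d, hddef⟩ : ∃ d : ℕ, d = orderOf χ₀ := ⟨_, rfl⟩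
  have hq1 : 1 ≤ q := Nat.one_le_iff_ne_zero.2 (NeZero.ne q)
  have hqR : (1 : ℝ) ≤ q := by exact_mod_cast hq1
  have hqpos : (0 : ℝ) < q := by linarith
  obtain ⟨X, hXdef⟩ : ∃ X : ℝ, X = (q : ℝ) ^ (3 / 2 : ℝ) := ⟨_, rfl⟩
  have hX : 0 < X := by rw [hXdef]; positivity
  obtain ⟨Bx, hBxdef⟩ : ∃ Bx : ℝ, Bx = (q : ℝ) ^ (ε / 2) := ⟨_, rfl⟩
  have hBx : 1 ≤ Bx := by rw [hBxdef]; exact Real.one_le_rpow hqR (by positivity)
  have hdpos : 0 < d := by
    rw [hddef]
    exact orderOf_pos χ₀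
  have hcard : ∀ e : ℕ, e ∣ orderOf χ₀ → e * Nat.card (Hg q χ₀ e) ≤ q := fun e he =>
    (h2 q χ₀ e he).1.le.trans (Nat.totient_le q)
  have hdle : d ≤ q := by
    have g1 := hcard (orderOf χ₀) dvd_rfl
    have g2 : 0 < Nat.card (Hg q χ₀ (orderOf χ₀)) := Nat.card_pos
    rw [← hddef] at g1 g2
    exact (Nat.le_mul_of_pos_right d g2).trans g1
  have hdR : (0 : ℝ) < d := by exact_mod_cast hdpos
  rw [← hXdef, ← hBxdef, double_sum hV h2 h3 hInv q χ₀ _ X hX]
  rw [← hddef] at hdq hcard ⊢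
  have hφ : (Nat.totient d : ℂ) = ((Nat.totient d : ℝ) : ℂ) := by push_cast; rfl
  rw [hφ, ← Complex.ofReal_sub, Complex.norm_real, Real.norm_eq_abs]
  -- the terms
  have hP : ∀ e ∈ d.divisors, (e : ℝ) * |∑' k : ℕ, ai q (Hg q χ₀ e) k * HG V c m ⌊Bx⌋₊ X k / k - VV V X 1| ≤
      2 * CV * (d * (Bx ^ 5 / X)) + CV * C1 * (C0 * d * (q : ℝ) ^ (-δ0)) := by
    intro e he
    have hed := Nat.dvd_of_mem_divisors he
    have hele : (e : ℝ) ≤ d := by exact_mod_cast Nat.le_of_dvd hdpos hed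
    have b1 := pe_bound hV hInv hc η C1 hη8 hC1pos hC1b q (Hg q χ₀ e) Bx X hBx hX
    have b2 := htail q d e hed hdle hdq (Hg q χ₀ e) (hcard e hed)
    have b3 : Bx * X = (q : ℝ) ^ (3 / 2 + ε / 2) := by
      rw [hBxdef, hXdef, ← Real.rpow_add hqpos]
      congr 1
      ring
    rw [b3] at b1
    rw [← hBxdef] at b2
    calc (e : ℝ) * |∑' k : ℕ, ai q (Hg q χ₀ e) k * HG V c m ⌊Bx⌋₊ X k / k - VV V X 1| ≤
          e * (2 * CV * (Bx ^ 5 / X) +
            CV * C1 * tail q (Hg q χ₀ e) Bx ((q : ℝ) ^ (3 / 2 + ε / 2)) η) := by gcongr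
      _ = 2 * CV * (e * (Bx ^ 5 / X)) +
            CV * C1 * (e * tail q (Hg q χ₀ e) Bx ((q : ℝ) ^ (3 / 2 + ε / 2)) η) := by ring
      _ ≤ 2 * CV * (d * (Bx ^ 5 / X)) + CV * C1 * (C0 * d * (q : ℝ) ^ (-δ0)) := by gcongr
  have hsplit : ∑ e ∈ d.divisors, ((ArithmeticFunction.moebius (d / e) : ℤ) : ℝ) * ((e : ℝ) *
      ∑' k : ℕ, ai q (Hg q χ₀ e) k * HG V c m ⌊Bx⌋₊ X k / k) - (Nat.totient d : ℝ) =
      ∑ e ∈ d.divisors, ((ArithmeticFunction.moebius (d / e) : ℤ) : ℝ) * ((e : ℝ) *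
        (∑' k : ℕ, ai q (Hg q χ₀ e) k * HG V c m ⌊Bx⌋₊ X k / k - VV V X 1)) +
      (VV V X 1 - 1) * (Nat.totient d : ℝ) := by
    rw [← moebius_sum d hdpos, mul_sum, ← sum_add_distrib, ← sum_sub_distrib]
    refine sum_congr rfl (fun e _ => ?_)
    ring
  rw [hsplit]
  have hE1 : |VV V X 1 - 1| ≤ 2 * CV * (1 / X) := by
    have := VV_one hV X hX 1
    push_cast at this
    exact this
  have hτ : (d.divisors.card : ℝ) ≤ Cb * (q : ℝ) ^ ρ := by
    refine (hdivb d hdpos).trans ?_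
    have : (d : ℝ) ≤ q := by exact_mod_cast hdle
    gcongr
  have hφd : (Nat.totient d : ℝ) ≤ d := by exact_mod_cast Nat.totient_le d
  have hmain : |∑ e ∈ d.divisors, ((ArithmeticFunction.moebius (d / e) : ℤ) : ℝ) * ((e : ℝ) *
        (∑' k : ℕ, ai q (Hg q χ₀ e) k * HG V c m ⌊Bx⌋₊ X k / k - VV V X 1))| ≤
      d.divisors.card * (2 * CV * (d * (Bx ^ 5 / X)) + CV * C1 * (C0 * d * (q : ℝ) ^ (-δ0))) := by
    calc _ ≤ ∑ e ∈ d.divisors, |((ArithmeticFunction.moebius (d / e) : ℤ) : ℝ) * ((e : ℝ) *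
        (∑' k : ℕ, ai q (Hg q χ₀ e) k * HG V c m ⌊Bx⌋₊ X k / k - VV V X 1))| :=
          abs_sum_le_sum_abs _ _
      _ ≤ ∑ e ∈ d.divisors,
          (2 * CV * (d * (Bx ^ 5 / X)) + CV * C1 * (C0 * d * (q : ℝ) ^ (-δ0))) := by
          refine sum_le_sum (fun e he => ?_)
          rw [abs_mul, abs_mul, Nat.abs_cast]
          have g1 : |((ArithmeticFunction.moebius (d / e) : ℤ) : ℝ)| ≤ 1 := by
            have := ArithmeticFunction.abs_moebius_le_one (n := d / e)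
            exact_mod_cast this
          have g2 := hP e he
          have g3 : 0 ≤ (e : ℝ) *
              |∑' k : ℕ, ai q (Hg q χ₀ e) k * HG V c m ⌊Bx⌋₊ X k / k - VV V X 1| := by
            positivity
          calc _ ≤ 1 * ((e : ℝ) *
                |∑' k : ℕ, ai q (Hg q χ₀ e) k * HG V c m ⌊Bx⌋₊ X k / k - VV V X 1|) := by
                gcongr
            _ ≤ _ := by rw [one_mul]; exact g2
      _ = _ := by rw [sum_const, nsmul_eq_mul]
  -- numerical estimates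
  have hn1 : Bx ^ 5 / X ≤ (q : ℝ) ^ (-(2 * ρ)) := by
    rw [hBxdef, hXdef, ← Real.rpow_natCast, ← Real.rpow_mul hqpos.le, ← Real.rpow_sub hqpos]
    apply Real.rpow_le_rpow_of_exponent_le hqR
    push_cast
    linarith
  have hn2 : (q : ℝ) ^ (-δ0) ≤ (q : ℝ) ^ (-(2 * ρ)) :=
    Real.rpow_le_rpow_of_exponent_le hqR (by linarith)
  have hn3 : 1 / X ≤ (q : ℝ) ^ (-ρ) := by
    rw [hXdef, one_div, ← Real.rpow_neg hqpos.le]
    exact Real.rpow_le_rpow_of_exponent_le hqR (by linarith)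
  have hn4 : (q : ℝ) ^ ρ * (q : ℝ) ^ (-(2 * ρ)) = (q : ℝ) ^ (-ρ) := by
    rw [← Real.rpow_add hqpos]
    congr 1
    ring
  have hQ : 0 < (q : ℝ) ^ (-ρ) := by positivity
  calc _ ≤ d.divisors.card * (2 * CV * (d * (Bx ^ 5 / X)) + CV * C1 * (C0 * d * (q : ℝ) ^ (-δ0))) +
        2 * CV * (1 / X) * (Nat.totient d : ℝ) := by
        refine (abs_add_le _ _).trans (add_le_add hmain ?_)
        rw [abs_mul, Nat.abs_cast]
        gcongr
    _ ≤ (Cb * (q : ℝ) ^ ρ) * (2 * CV * (d * (q : ℝ) ^ (-(2 * ρ))) +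
          CV * C1 * (C0 * d * (q : ℝ) ^ (-(2 * ρ)))) +
        2 * CV * (q : ℝ) ^ (-ρ) * d := by gcongr
    _ = Cb * (2 * CV + CV * C1 * C0) * d * ((q : ℝ) ^ ρ * (q : ℝ) ^ (-(2 * ρ))) +
        2 * CV * (q : ℝ) ^ (-ρ) * d := by ring
    _ = (Cb * (2 * CV + CV * C1 * C0) + 2 * CV) * d * (q : ℝ) ^ (-ρ) := by rw [hn4]; ring

end Pool.Agent.W55.CY
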